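import Pool.Agent.Y32.GC.Pat

set_option autoImplicit false

/-!
# Pairs of consecutive almost primes with difference six between consecutive cubes
-/

namespace Pool.Agent.Results.MP_5628fe_nt.GapLawSexyPairs

open Finset Filter

/-- `(m, m + 6)` is a pair of consecutive almost primes (at height `n`): `m` and `m + 6` have at most
`4 r` prime factors each (with multiplicity), all of them larger than `n ^ (1 / r)`, and each of the
five integers between them has a prime factor `≤ n ^ (1 / r)`. -/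
def SexyPair (r n m : ℕ) : Prop :=
  m.primeFactorsList.length ≤ 4 * r ∧ (m + 6).primeFactorsList.length ≤ 4 * r ∧
  (∀ p : ℕ, p.Prime → p ∣ m * (m + 6) → (n : ℝ) ^ (1 / (r : ℝ)) < (p : ℝ)) ∧
  ∀ h : ℕ, 0 < h → h < 6 → ∃ p : ℕ, p.Prime ∧ p ∣ m + h ∧ (p : ℝ) ≤ (n : ℝ) ^ (1 / (r : ℝ))

/-- The sieve density: `1 / 3` times the product of `1 - 2 / p` over the primes
`3 < p ≤ n ^ (1 / r)`. -/
noncomputable def V (r n : ℕ) : ℝ :=
  1 / 3 * ∏ p ∈ (Finset.range (⌊(n : ℝ) ^ (1 / (r : ℝ))⌋₊ + 1)).filter (fun p => p.Prime ∧ 3 < p),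
    (1 - 2 / (p : ℝ))

open Classical in
/-- The number of the pairs `(m, m + 6)` with `m` in `(Z, Z + Y]` such that fewer than `l` such pairs
start in `[m - T, m)`. -/
noncomputable def Near (r n l T Z Y : ℕ) : ℕ :=
  ((Finset.Ioc Z (Z + Y)).filter (fun m => SexyPair r n m ∧
    ((Finset.Ico (m - T) m).filter (fun m' => SexyPair r n m')).card < l)).card

open Pool.Agent.TH464.PO Pool.Agent.W123.RP Pool.Agent.Y859.SP Pool.Agent.Y32.GC
open Pool.Agent.Y859.SP.Tup (QT ctl_QT sf_Good)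
open Pool.Agent.W123.RU (level_low)
open Pool.Agent.H373R2.T7 (mem_pz pz nuB)

/-- the shifts -/
def dd : Fin 2 → ℕ := ![0, 6]

lemma dd_zero : dd 0 = 0 := rfl

lemma dd_one : dd 1 = 6 := rfl

lemma adm_dd : Pool.Agent.Y859.SP.Tup.Adm dd := by
  intro p hp
  by_cases h5 : p = 5
  · refine ⟨1, fun i => ?_⟩
    subst h5
    fin_cases i
    · change ¬ 5 ∣ 1 + 0
      norm_num
    · change ¬ 5 ∣ 1 + 6
      norm_num
  · by_cases h7 : p = 7
    · refine ⟨2, fun i => ?_⟩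
      subst h7
      fin_cases i
      · change ¬ 7 ∣ 2 + 0
        norm_num
      · change ¬ 7 ∣ 2 + 6
        norm_num
    · refine ⟨1, fun i => ?_⟩
      fin_cases i
      · change ¬ p ∣ 1 + 0
        intro h
        exact hp.one_lt.ne' (Nat.dvd_one.1 h)
      · change ¬ p ∣ 1 + 6
        intro h
        exact h7 ((Nat.prime_dvd_prime_iff_eq hp (by norm_num)).1 h)

lemma inj_dd : Function.Injective dd := by
  intro i j h
  fin_cases i <;> fin_cases j <;> simp_all [dd]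

lemma QT_iff (p m : ℕ) : QT dd p m ↔ p ∣ m ∨ p ∣ m + 6 := by
  unfold QT
  constructor
  · rintro ⟨i, hi⟩
    fin_cases i
    · left; exact hi
    · right; exact hi
  · rintro (h | h)
    · exact ⟨0, h⟩
    · exact ⟨1, h⟩

open Classical in
/-- the number of classes -/
lemma nu_dd (p : ℕ) (hp : p.Prime) : nuB (QT dd) p = if p ≤ 3 then 1 else 2 := by
  unfold nuB
  have h2 := hp.two_le
  split_ifs with h3
  · rw [card_eq_one]
    refine ⟨0, ?_⟩
    ext m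
    rw [mem_filter, mem_range, mem_singleton, QT_iff]
    interval_cases p
    · constructor
      · rintro ⟨h1, h | h⟩ <;> omega
      · rintro rfl
        exact ⟨by norm_num, Or.inl (by norm_num)⟩
    · constructor
      · rintro ⟨h1, h | h⟩ <;> omega
      · rintro rfl
        exact ⟨by norm_num, Or.inl (by norm_num)⟩
  · have h5 : 5 ≤ p := by
      by_contra hcon
      have : p = 4 := by omega
      subst this
      exact absurd hp (by norm_num)
    rw [card_eq_two]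
    obtain ⟨a, ha, hpa⟩ := Pool.Agent.Y859.SP.Tup.root_exists 6 p hp
    refine ⟨0, a, ?_, ?_⟩
    · intro h0
      rw [← h0, zero_add] at hpa
      have := Nat.le_of_dvd (by norm_num) hpa
      interval_cases p
      · norm_num at hpa
      · norm_num at hp
    · ext m
      rw [mem_filter, mem_range, mem_insert, mem_singleton, QT_iff]
      constructor
      · rintro ⟨h1, h | h⟩
        · left
          by_contra h0
          exact absurd (Nat.le_of_dvd (Nat.pos_of_ne_zero h0) h) (by omega)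
        · right
          exact Pool.Agent.Y859.SP.Tup.root_unique 6 p m a h1 ha h hpa
      · rintro (rfl | rfl)
        · exact ⟨by omega, Or.inl (dvd_zero p)⟩
        · exact ⟨ha, Or.inr hpa⟩

open Classical in
lemma V_dd (r n : ℕ) (h3 : 3 ≤ ⌊(n : ℝ) ^ (1 / (r : ℝ))⌋₊) :
    Vq (QT dd) ⌊(n : ℝ) ^ (1 / (r : ℝ))⌋₊ = V r n := by
  unfold Vq V
  obtain ⟨y, hy⟩ : ∃ y, y = ⌊(n : ℝ) ^ (1 / (r : ℝ))⌋₊ := ⟨_, rfl⟩
  rw [← hy] at h3 ⊢
  have hfac : ∀ p ∈ pz y, (1 - (nuB (QT dd) p : ℝ) / p) =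
      if p ≤ 3 then (1 - 1 / (p : ℝ)) else (1 - 2 / (p : ℝ)) := by
    intro p hp
    rw [nu_dd p (mem_pz.1 hp).2]
    split_ifs <;> norm_num
  rw [Finset.prod_congr rfl hfac, Finset.prod_ite]
  have e1 : (pz y).filter (fun p => p ≤ 3) = {2, 3} := by
    ext p
    rw [mem_filter, mem_pz, mem_insert, mem_singleton]
    constructor
    · rintro ⟨⟨h1, h2⟩, h4⟩
      have := h2.two_le
      omega
    · rintro (rfl | rfl)
      · exact ⟨⟨by omega, Nat.prime_two⟩, by norm_num⟩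
      · exact ⟨⟨by omega, Nat.prime_three⟩, by norm_num⟩
  have e2 : (pz y).filter (fun p => ¬ p ≤ 3) =
      (Finset.range (y + 1)).filter (fun p => p.Prime ∧ 3 < p) := by
    ext p
    rw [mem_filter, mem_pz, mem_filter, mem_range]
    constructor
    · rintro ⟨⟨h1, h2⟩, h4⟩
      exact ⟨by omega, h2, by omega⟩
    · rintro ⟨h1, h2, h4⟩
      exact ⟨⟨by omega, h2⟩, by omega⟩
  rw [e1, e2, Finset.prod_pair (by norm_num)]
  norm_num

lemma mem_Hs_dd (h : ℕ) : h ∈ Hs dd ↔ 0 < h ∧ h < 6 := by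
  rw [mem_Hs]
  constructor
  · rintro ⟨⟨i, hi⟩, ⟨j, hj⟩, -⟩
    have hi0 : 0 ≤ dd i := Nat.zero_le _
    have hj6 : dd j ≤ 6 := by fin_cases j <;> simp [dd]
    omega
  · rintro ⟨h1, h2⟩
    refine ⟨⟨0, by rw [dd_zero]; exact h1⟩, ⟨1, by rw [dd_one]; exact h2⟩, fun l => ?_⟩
    fin_cases l
    · change 0 ≠ h
      omega
    · change 6 ≠ h
      omega

lemma sexy_iff (r n m : ℕ)
    (h : Sf (QT dd) ⌊(n : ℝ) ^ (1 / (r : ℝ))⌋₊ m ↔ Pool.Agent.Y859.SP.Tup.Good dd 4 r n m) :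
    SexyPair r n m ↔ Sc dd ⌊(n : ℝ) ^ (1 / (r : ℝ))⌋₊ m := by
  unfold Sc SexyPair
  rw [h]
  unfold Pool.Agent.Y859.SP.Tup.Good
  constructor
  · rintro ⟨h1, h2, h3, h4⟩
    refine ⟨fun i => ?_, fun g hg => ?_⟩
    · fin_cases i
      · refine ⟨h1, fun p hp hd => h3 p hp (Dvd.dvd.mul_right hd _)⟩
      · refine ⟨h2, fun p hp hd => h3 p hp (Dvd.dvd.mul_left hd _)⟩
    · obtain ⟨g1, g2⟩ := (mem_Hs_dd g).1 hg
      obtain ⟨p, hp, hpd, hpX⟩ := h4 g g1 g2
      exact ⟨p, mem_pz.2 ⟨Nat.le_floor hpX, hp⟩, hpd⟩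
  · rintro ⟨H1, H2⟩
    refine ⟨(H1 0).1, (H1 1).1, fun p hp hd => ?_, fun g g1 g2 => ?_⟩
    · rcases (Nat.Prime.dvd_mul hp).1 hd with hd | hd
      · exact (H1 0).2 p hp hd
      · exact (H1 1).2 p hp hd
    · obtain ⟨p, hp, hpd⟩ := H2 g ((mem_Hs_dd g).2 ⟨g1, g2⟩)
      obtain ⟨hp1, hp2⟩ := mem_pz.1 hp
      exact ⟨p, hp2, hpd, (Nat.le_floor_iff (by positivity)).1 hp1⟩

open Classical in
/-- **Pairs of consecutive almost primes with difference six between consecutive cubes.** -/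
theorem result : ∃ v : ℝ, 0 < v ∧ ∀ θ : ℝ, 0 < θ → ∀ (l0 : ℕ) (x0 ε : ℝ), 0 < ε →
    ∃ r0 : ℕ, ∀ r : ℕ, r0 ≤ r → ∀ᶠ n : ℕ in atTop,
      v / Real.log n ^ 2 ≤ V r n ∧
      ∀ Z Y : ℕ, n ^ 3 ≤ Z → Z + Y + 6 < (n + 1) ^ 3 → (n : ℝ) ^ θ ≤ Y →
      ∀ l T : ℕ, (l ≤ l0 ∨ T * V r n ≤ x0) →
        |(Near r n l T Z Y : ℝ) - Y * V r n * ∑ j ∈ Finset.range l,
          Real.exp (-(T * V r n)) * (T * V r n) ^ j / j.factorial| ≤ ε * (Y * V r n) := by
  obtain ⟨v, hv, hVlo⟩ := V_lower_unif 2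
  refine ⟨v, hv, ?_⟩
  intro θ hθ l0 x0 ε hε
  obtain ⟨r0, h0⟩ := pattern_law le_rfl dd adm_dd inj_dd θ hθ l0 x0 ε hε
  refine ⟨max r0 2, ?_⟩
  intro r hr
  have hr2 : 2 ≤ r := (le_max_right _ _).trans hr
  have hrr : (2 : ℝ) ≤ r := by exact_mod_cast hr2
  have hpow2 : Tendsto (fun X : ℕ => (X : ℝ) ^ (1 / (2 * r : ℝ))) atTop atTop :=
    (tendsto_rpow_atTop (by positivity)).comp tendsto_natCast_atTop_atTop
  filter_upwards [h0 r ((le_max_left _ _).trans hr), sf_Good (k := 2) 4 r (by omega),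
    ctl_QT le_rfl 1, hpow2.eventually_ge_atTop 3, eventually_ge_atTop 16] with
    n hn hap hctl hn3 hn16
  obtain ⟨hy1, hy2, hy3, hy4⟩ := level_low r hr2 n (by omega) (by linarith)
  have hfl : 3 ≤ ⌊(n : ℝ) ^ (1 / (r : ℝ))⌋₊ := by
    have : (3 : ℝ) ≤ ⌊(n : ℝ) ^ (1 / (r : ℝ))⌋₊ := hn3.trans hy1
    exact_mod_cast this
  have hV : Vq (QT dd) ⌊(n : ℝ) ^ (1 / (r : ℝ))⌋₊ = V r n := V_dd r n hfl
  have hd6 : ∀ i, dd i ≤ 6 := fun i => by fin_cases i <;> simp [dd]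
  have hc := hctl dd adm_dd inj_dd (fun i => by rw [pow_one]; have := hd6 i; omega)
  have hn4 : n ≤ n ^ 4 := Nat.le_self_pow (by norm_num) n
  refine ⟨?_, ?_⟩
  · rw [← hV]
    have hn16r : (16 : ℝ) ≤ n := by exact_mod_cast hn16
    have hL0 : 0 < Real.log n := Real.log_pos (by linarith)
    have hlogy : 0 < Real.log ⌊(n : ℝ) ^ (1 / (r : ℝ))⌋₊ := lt_of_lt_of_le (by positivity) hy2
    refine le_trans ?_ (hVlo (QT dd) hc.per hc.adm _ hy4)
    apply div_le_div_of_nonneg_left hv.le (by positivity)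
    exact pow_le_pow_left₀ hlogy.le hy3 2
  intro Z Y hZ hZY hY l T hlT
  have hcube : (n + 1) ^ 3 ≤ n ^ 4 := by
    have h1 : n + 1 ≤ 2 * n := by omega
    calc (n + 1) ^ 3 ≤ (2 * n) ^ 3 := Nat.pow_le_pow_left h1 3
      _ = 8 * n ^ 3 := by ring
      _ ≤ n * n ^ 3 := Nat.mul_le_mul_right _ (by omega)
      _ = n ^ 4 := by ring
  have h1 := hn Z Y hY l T (by rw [hV]; exact hlT)
  rw [hV] at h1
  have hN : Near r n l T Z Y = Pk (Sc dd ⌊(n : ℝ) ^ (1 / (r : ℝ))⌋₊) l T Z Y := by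
    unfold Near Pk
    congr 1
    apply Finset.filter_congr
    intro m hm
    rw [mem_Ioc] at hm
    have hm4 : m ≤ n ^ 4 := by omega
    have e1 : SexyPair r n m ↔ Sc dd ⌊(n : ℝ) ^ (1 / (r : ℝ))⌋₊ m :=
      sexy_iff r n m (hap dd (fun i => by have := hd6 i; omega) m hm4)
    have e2 : (Finset.Ico (m - T) m).filter (fun m' => SexyPair r n m') =
        (Finset.Ico (m - T) m).filter (Sc dd ⌊(n : ℝ) ^ (1 / (r : ℝ))⌋₊) := by
      apply Finset.filter_congr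
      intro m' hm'
      rw [mem_Ico] at hm'
      exact sexy_iff r n m' (hap dd (fun i => by have := hd6 i; omega) m' (by omega))
    rw [e1, e2]
  rw [hN]
  exact h1

end Pool.Agent.Results.MP_5628fe_nt.GapLawSexyPairs
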