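import Pool.Agent.Y677.RSZ.FinPow
import Pool.Agent.TH977.PW.Prog

set_option autoImplicit false

/-!
# Narrow arithmetic progressions of sexy primes and sexy almost primes between consecutive cubes

Let `R r` be the set of the `p` for which all prime factors of `p` and `p + 6` are larger than
`p ^ (1 / r)`; it contains the lower members `p` of all pairs of sexy primes. Let `A` be an ARBITRARY
subset of `R r`, for example the set of all `p` for which `p` and `p + 6` are consecutive primes. For all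
large `n` all but `ε n ^ 2 / log ^ 2 n` of the elements `p` of `A` with `n ^ 3 < p < p + 6 < (n + 1) ^ 3`
are terms of `l`-term arithmetic progressions of such elements with difference at most `(log n) ^ B`; and
for every `l` there are such progressions of almost prime pairs, the number `r` of prime factors being
independent of `l`.
-/

namespace Pool.Agent.Results.MP_5628fe_nt.NarrowProgressions

open Finset Filter
open Pool.Agent.TH977.PW (N)
open Pool.Agent.Y677.RSZ (InProg Outside)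

/-- All prime factors of `p` and of `p + 6` are larger than `p ^ (1 / r)`. -/
def R (r : ℕ) : Set ℕ :=
  {p | ∀ q : ℕ, q.Prime → q ∣ p * (p + 6) → (p : ℝ) ^ (1 / (r : ℝ)) < (q : ℝ)}

/-- The `p` of `R r` for which `p` and `p + 6` have at most `r` prime factors. -/
def P (r : ℕ) : Set ℕ :=
  {p | p ∈ R r ∧ p.primeFactorsList.length ≤ r ∧ (p + 6).primeFactorsList.length ≤ r}

/-- **Narrow progressions of sexy primes and sexy almost primes between consecutive cubes.** -/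
theorem result : ∃ r₀ : ℕ, 2 ≤ r₀ ∧ ∀ r : ℕ, r₀ ≤ r →
    (∀ p : ℕ, p.Prime → (p + 6).Prime → p ∈ R r) ∧
    (∃ κ : ℝ, 0 < κ ∧ ∀ᶠ n : ℕ in atTop, κ * (n : ℝ) ^ 2 / Real.log n ^ 2 ≤
      N (P r) (n ^ 3) ((n + 1) ^ 3 - 7)) ∧
    (∀ l : ℕ, 2 ≤ l → ∀ ε : ℝ, 0 < ε → ∃ B : ℕ, ∀ᶠ n : ℕ in atTop, ∀ A : Set ℕ, A ⊆ R r →
      (N (Outside A l (Real.log n ^ B) (n ^ 3) ((n + 1) ^ 3 - 7)) (n ^ 3) ((n + 1) ^ 3 - 7) : ℝ) ≤
        ε * (n : ℝ) ^ 2 / Real.log n ^ 2) ∧
    ∀ l : ℕ, ∃ B : ℕ, ∀ᶠ n : ℕ in atTop, ∃ u d : ℕ, 1 ≤ d ∧ (d : ℝ) ≤ Real.log n ^ B ∧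
      ∀ i < l, u + i * d ∈ P r ∧ n ^ 3 < u + i * d ∧ u + i * d ≤ (n + 1) ^ 3 - 7 := by
  have hmem : ∀ h : ℕ, h ∈ ({0, 6} : Finset ℕ) ↔ h = 0 ∨ h = 6 := by
    intro h
    simp only [mem_insert, mem_singleton]
  obtain ⟨r0, hr0, h⟩ := Pool.Agent.Y677.RSZ.narrow_prog {0, 6} ⟨0, by simp⟩ 1 0 one_pos
    (fun h _ => Nat.coprime_one_right _)
    (fun p hp => by
      by_cases h7 : p = 7
      · subst h7
        refine ⟨2, fun h hh hd => ?_⟩
        rcases (hmem h).1 hh with rfl | rfl <;> omega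
      · refine ⟨1, fun h hh hd => ?_⟩
        rcases (hmem h).1 hh with rfl | rfl
        · exact hp.one_lt.ne' (Nat.dvd_one.1 hd)
        · exact h7 ((Nat.prime_dvd_prime_iff_eq hp (by norm_num)).1 hd))
    R P 2 (by rfl)
    (fun r m _ hm h hh p hp hdv => by
      refine hm p hp ?_
      rcases (hmem h).1 hh with rfl | rfl
      · exact Dvd.dvd.mul_right (by simpa using hdv) _
      · exact Dvd.dvd.mul_left hdv _)
    (fun r _ => Eventually.of_forall (fun m _ h1 h2 => ⟨fun p hp hdv => by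
      rcases (Nat.Prime.dvd_mul hp).1 hdv with h3 | h3
      · exact h1 0 ((hmem 0).2 (Or.inl rfl)) p hp (by simpa using h3)
      · exact h1 6 ((hmem 6).2 (Or.inr rfl)) p hp h3,
      by simpa using h2 0 ((hmem 0).2 (Or.inl rfl)), h2 6 ((hmem 6).2 (Or.inr rfl))⟩))
    (((3 - 1 : ℕ) : ℝ) / (3 : ℕ)) (by norm_num) (by norm_num)
  refine ⟨r0, hr0, fun r hr => ⟨?_, Pool.Agent.Y677.RSZ.between 3 7 2 (by norm_num)
    (fun _ hm => hm.1) (h r hr).1 (h r hr).2⟩⟩
  intro n hn hn2 p hp hdv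
  have h2r : 2 ≤ r := hr0.trans hr
  rcases (Nat.Prime.dvd_mul hp).1 hdv with h3 | h3
  · exact Pool.Agent.TH977.PW.rpow_lt_dvd r n p h2r hn hp h3
  · rw [(Nat.prime_dvd_prime_iff_eq hp hn2).1 h3]
    exact Pool.Agent.TH977.PW.rpow_lt_of_le r n _ h2r hn.two_le (by omega)

end Pool.Agent.Results.MP_5628fe_nt.NarrowProgressions
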