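import Pool.Agent.Y816.PD.UniS2

set_option autoImplicit false

/-!
# Almost primes `p, p + 6` between consecutive cubes without a prime between them, with restricted digits

For every large `n` the pairs `n ^ 3 + j, n ^ 3 + j + 6` between `n ^ 3` and `(n + 1) ^ 3` are considered, where
the `i`-th digit of `j` in base `b` belongs to an arbitrary set `A i` for all `i < K`, `K = log_b (3 n ^ 2)` (integer
part), the product of the `|A i|` being at least `exp (- c K) b ^ K`.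
-/

namespace Pool.Agent.Results.MP_5628fe_nt.RestrictedDigits

open Finset Filter
open Pool.Agent.Y816.PD (ND NA SG SR ST)

/-- All prime factors of `n ^ 3 + j` and of `n ^ 3 + j + 6` are larger than `j ^ (1 / r)`. -/
def R (n r : ℕ) : Set ℕ := {j | ∀ p : ℕ, p.Prime → (p ∣ n ^ 3 + j ∨ p ∣ n ^ 3 + j + 6) → j < p ^ r}

/-- `n ^ 3 < n ^ 3 + j < n ^ 3 + j + 6 < (n + 1) ^ 3`, all prime factors of `n ^ 3 + j` and of
`n ^ 3 + j + 6` are larger than `y ^ (1 / r)`, these numbers have at most `r` prime factors, and there is no prime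
strictly between them. -/
def P (n r y : ℕ) : Set ℕ := {j | (0 < j ∧ n ^ 3 + j + 6 < (n + 1) ^ 3) ∧
  (∀ p : ℕ, p.Prime → (p ∣ n ^ 3 + j ∨ p ∣ n ^ 3 + j + 6) → y < p ^ r) ∧
  ((n ^ 3 + j).primeFactorsList.length ≤ r ∧ (n ^ 3 + j + 6).primeFactorsList.length ≤ r) ∧
  ∀ q : ℕ, n ^ 3 + j < q → q < n ^ 3 + j + 6 → ¬ q.Prime}

lemma adm3 (e : ℕ) (he : e = 2 ∨ e = 4) (p : ℕ) (hp : p.Prime) :
    ∃ m : ℕ, ∀ h ∈ insert e ({0, 6} : Finset ℕ), ¬ p ∣ m + h := by
  rcases he with rfl | rfl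
  · refine Pool.Agent.Y816.PD.adm2 (insert 2 {0, 6}) 5 17 ?_ ?_ ?_ p hp
    · intro h hh
      simp only [mem_insert, mem_singleton] at hh
      rcases hh with rfl | rfl | rfl <;> norm_num
    · intro h hh
      simp only [mem_insert, mem_singleton] at hh
      rcases hh with rfl | rfl | rfl <;> norm_num
    · intro h hh h' hh'
      simp only [mem_insert, mem_singleton] at hh hh'
      rcases hh with rfl | rfl | rfl <;> rcases hh' with rfl | rfl | rfl <;> norm_num
  · refine Pool.Agent.Y816.PD.adm2 (insert 4 {0, 6}) 7 37 ?_ ?_ ?_ p hp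
    · intro h hh
      simp only [mem_insert, mem_singleton] at hh
      rcases hh with rfl | rfl | rfl <;> norm_num
    · intro h hh
      simp only [mem_insert, mem_singleton] at hh
      rcases hh with rfl | rfl | rfl <;> norm_num
    · intro h hh h' hh'
      simp only [mem_insert, mem_singleton] at hh hh'
      rcases hh with rfl | rfl | rfl <;> rcases hh' with rfl | rfl | rfl <;> norm_num

lemma final (n r b K : ℕ) (hb : 2 ≤ b) (hn : 4 ≤ n) (hrK : r ≤ K) (hb1 : b ^ K ≤ 3 * n ^ 2) (j : ℕ)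
    (hj : j ∈ SG {0, 6} {2, 4} (n ^ 3) r (b ^ K) (b ^ (K - 1))) : j ∈ P n r (b ^ K) := by
  obtain ⟨⟨hjK, hj1, hj2⟩, hE⟩ := hj
  have h5 := hj2 0 (by simp)
  have h6 := hj2 6 (by simp)
  rw [add_zero] at h5
  have h7 : 0 < b ^ (K - 1) := by positivity
  have hq2 := hE 2 (by simp)
  have hq4 := hE 4 (by simp)
  obtain ⟨x, hx⟩ : ∃ x, x = n ^ 3 + j := ⟨_, rfl⟩
  refine ⟨⟨by omega, ?_⟩, fun p hp hd => ?_, ⟨h5.2, h6.2⟩, ?_⟩
  · have h8 : (n + 1) ^ 3 = n ^ 3 + 3 * n ^ 2 + 3 * n + 1 := by ring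
    rw [h8]
    generalize n ^ 3 = u
    generalize n ^ 2 = v at *
    omega
  · rcases hd with hd | hd
    · exact h5.1 p hp hd
    · exact h6.1 p hp hd
  · intro q hq1 hq2' hqp
    have hodd : ¬ 2 ∣ n ^ 3 + j := by
      intro h2
      have h9 := h5.1 2 Nat.prime_two h2
      have h10 : 2 ^ r ≤ 2 ^ K := Nat.pow_le_pow_right (by norm_num) hrK
      have h11 : 2 ^ K ≤ b ^ K := Nat.pow_le_pow_left hb K
      exact absurd (h10.trans h11) (not_le.2 h9)
    have hn3 : 4 ≤ n ^ 3 := hn.trans (Nat.le_self_pow (by norm_num) n)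
    have hx4 : 4 ≤ x := by rw [hx]; exact hn3.trans (Nat.le_add_right _ _)
    rw [← hx] at hq2 hq4 hq1 hq2' hodd
    have hqo : q = 2 ∨ q % 2 = 1 := hqp.eq_two_or_odd
    have hcase : q = x + 2 ∨ q = x + 4 := by omega
    rcases hcase with rfl | rfl
    · exact hq2 hqp
    · exact hq4 hqp

/-- **Almost primes `p, p + 6` between consecutive cubes without a prime between them, with restricted digits.** -/
theorem result :
    ∃ c : ℝ, 0 < c ∧ ∃ r₀ : ℕ, 2 ≤ r₀ ∧ ∀ r : ℕ, r₀ ≤ r →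
      (∀ n j : ℕ, (n ^ 3 + j).Prime → (n ^ 3 + j + 6).Prime → j ∈ R n r) ∧
      ∀ b : ℕ, 2 ≤ b → ∃ κ C : ℝ, 0 < κ ∧ 0 < C ∧ ∀ᶠ n : ℕ in atTop, ∀ K : ℕ, K = Nat.log b (3 * n ^ 2) →
        ∀ A : ℕ → Finset ℕ, (∀ i < K, A i ⊆ range b) → (b : ℝ) ^ K ≤ Real.exp (c * K) * NA K A →
        ((∃ d ∈ A 0, (n ^ 3 + d).Coprime b ∧ (n ^ 3 + d + 6).Coprime b) → (∃ d ∈ A (K - 1), d ≠ 0) →
          κ * NA K A / (K : ℝ) ^ 2 ≤ ND b K A (P n r (b ^ K))) ∧
        (ND b K A (R n r) : ℝ) ≤ C * NA K A / (K : ℝ) ^ 2 := by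
  obtain ⟨c, hc, r₀, hr₀, h⟩ := Pool.Agent.Y816.PD.uni_gap {0, 6}
    (Pool.Agent.Y816.PD.adm2 {0, 6} 5 7 (by decide) (by decide) (by decide)) 2 (by decide) (by norm_num) 3
    {2, 4} (fun e he => by
      simp only [mem_insert, mem_singleton] at he
      refine ⟨?_, adm3 e he⟩
      rcases he with rfl | rfl <;> decide)
  refine ⟨c, hc, r₀, hr₀, fun r hr => ⟨fun n j h1 h2 p hp hd => ?_, fun b hb => ?_⟩⟩
  · have h2r : 2 ≤ r := hr₀.trans hr
    have h3 : j ≤ p := by
      rcases hd with hd | hd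
      · rw [(Nat.prime_dvd_prime_iff_eq hp h1).1 hd]
        omega
      · rw [(Nat.prime_dvd_prime_iff_eq hp h2).1 hd]
        omega
    exact lt_of_le_of_lt h3 (lt_self_pow₀ hp.one_lt (by omega))
  · obtain ⟨κ, C, hκ, hC, h1⟩ := h r hr b hb
    refine ⟨κ, C, hκ, hC, ?_⟩
    obtain ⟨K0, hK0⟩ := eventually_atTop.1 h1
    filter_upwards [eventually_ge_atTop (b ^ (K0 + r + 2))] with n hn K hK A hA hprod
    have hn1 : 1 ≤ n := le_trans (Nat.one_le_pow _ _ (by omega)) hn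
    have hn4 : 4 ≤ n := by
      refine le_trans ?_ hn
      calc 4 = 2 ^ 2 := by norm_num
        _ ≤ b ^ 2 := Nat.pow_le_pow_left hb 2
        _ ≤ b ^ (K0 + r + 2) := Nat.pow_le_pow_right (by omega) (by omega)
    have hn2 : n ≤ 3 * n ^ 2 := by nlinarith
    have hKK : K0 + r + 2 ≤ K := by
      rw [hK]
      exact Nat.le_log_of_pow_le (by omega) (hn.trans hn2)
    have hb1 : b ^ K ≤ 3 * n ^ 2 := by
      rw [hK]
      exact Nat.pow_log_le_self b (by positivity)
    have hb2 : 3 * n ^ 2 < b ^ (K + 1) := by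
      rw [hK]
      exact Nat.lt_pow_succ_log_self (by omega) _
    have hN : n ^ 3 ≤ b ^ (3 * K) := by
      calc n ^ 3 ≤ n ^ 4 := Nat.pow_le_pow_right hn1 (by norm_num)
        _ ≤ (3 * n ^ 2) * (3 * n ^ 2) := by
          have : (3 * n ^ 2) * (3 * n ^ 2) = 9 * n ^ 4 := by ring
          omega
        _ ≤ b ^ (K + 1) * b ^ (K + 1) := Nat.mul_le_mul hb2.le hb2.le
        _ = b ^ (2 * K + 2) := by rw [← pow_add]; congr 1; ring
        _ ≤ b ^ (3 * K) := Nat.pow_le_pow_right (by omega) (by omega)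
    obtain ⟨h2, h3⟩ := hK0 K (by omega) (n ^ 3) hN A hA hprod
    constructor
    · rintro ⟨d, hd, hd1, hd2⟩ htop
      refine (h2 ⟨d, hd, ?_⟩ htop).trans ?_
      · intro h hh
        simp only [mem_insert, mem_singleton] at hh
        rcases hh with rfl | rfl
        · exact hd1
        · exact hd2
      · apply Nat.cast_le.2
        exact Pool.Agent.Y816.PD.ND_mono (fun j hj => final n r b K hb hn4 (by omega) hb1 j hj)
    · refine le_trans ?_ h3
      apply Nat.cast_le.2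
      apply Pool.Agent.Y816.PD.ND_mono
      intro j hj h hh p hp hd
      simp only [mem_insert, mem_singleton] at hh
      rcases hh with rfl | rfl
      · exact hj p hp (Or.inl hd)
      · exact hj p hp (Or.inr hd)

end Pool.Agent.Results.MP_5628fe_nt.RestrictedDigits
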